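import Mathlib

set_option autoImplicit false

namespace Pool.Agent.Helper48.QuaternionCA

noncomputable section

/-! ### The pairs `(v, g)` with `v : Q → ℤ₂` and `g : Q`, as a semidirect product -/

section pairs

/-- Pairs `(v, g)`, the underlying set of the semidirect product of `Q → ℤ₂` by `Q`. -/
@[ext]
structure W (Q : Type) where
  /-- the lattice part -/
  v : Q → ℤ_[2]
  /-- the group part -/
  g : Q

variable {Q : Type}

/-- `W Q` as a product. -/
def W.equivProd : W Q ≃ (Q → ℤ_[2]) × Q where
  toFun p := (p.v, p.g)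
  invFun p := ⟨p.1, p.2⟩
  left_inv _ := rfl
  right_inv _ := rfl

variable [Group Q]

instance : Mul (W Q) := ⟨fun p r => ⟨fun x => p.v x + r.v (x * p.g), p.g * r.g⟩⟩
instance : One (W Q) := ⟨⟨fun _ => 0, 1⟩⟩
instance : Inv (W Q) := ⟨fun p => ⟨fun x => - p.v (x * p.g⁻¹), p.g⁻¹⟩⟩

@[simp] lemma W.mul_v (p r : W Q) (x : Q) : (p * r).v x = p.v x + r.v (x * p.g) := rfl
@[simp] lemma W.mul_g (p r : W Q) : (p * r).g = p.g * r.g := rfl
@[simp] lemma W.one_v (x : Q) : (1 : W Q).v x = 0 := rfl
@[simp] lemma W.one_g : (1 : W Q).g = 1 := rfl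
@[simp] lemma W.inv_v (p : W Q) (x : Q) : (p⁻¹).v x = - p.v (x * p.g⁻¹) := rfl
@[simp] lemma W.inv_g (p : W Q) : (p⁻¹).g = p.g⁻¹ := rfl

instance : Group (W Q) :=
  Group.ofLeftAxioms
    (by
      intro p q r
      ext x
      · simp [add_assoc, mul_assoc]
      · simp [mul_assoc])
    (by
      intro p
      ext x <;> simp)
    (by
      intro p
      ext x <;> simp)

instance : TopologicalSpace (W Q) :=
  letI : TopologicalSpace Q := ⊥
  TopologicalSpace.induced (fun p => (p.v, p.g)) inferInstance

/-- `W Q` is homeomorphic to the product. -/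
def W.homeo (Q : Type) [Group Q] :
    letI : TopologicalSpace Q := ⊥
    W Q ≃ₜ (Q → ℤ_[2]) × Q :=
  letI : TopologicalSpace Q := ⊥
  { W.equivProd with
    continuous_toFun := continuous_induced_dom
    continuous_invFun := continuous_induced_rng.2 continuous_id }

instance : IsTopologicalGroup (W Q) := by
  let _ : TopologicalSpace Q := ⊥
  have _ : DiscreteTopology Q := ⟨rfl⟩
  have hv : Continuous (fun p : W Q => p.v) := continuous_fst.comp (W.homeo Q).continuous
  have hg : Continuous (fun p : W Q => p.g) := continuous_snd.comp (W.homeo Q).continuous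
  have hev : ∀ x : Q, Continuous (fun p : (Q → ℤ_[2]) × Q => p.1 (x * p.2)) := by
    intro x
    rw [continuous_prod_of_discrete_right]
    intro q
    exact continuous_apply (x * q)
  have hev' : ∀ x : Q, Continuous (fun p : (Q → ℤ_[2]) × Q => p.1 (x * p.2⁻¹)) := by
    intro x
    rw [continuous_prod_of_discrete_right]
    intro q
    exact continuous_apply (x * q⁻¹)
  have hmul : Continuous (fun p : W Q × W Q => p.1 * p.2) := by
    apply continuous_induced_rng.2
    refine Continuous.prodMk ?_ ?_
    · refine continuous_pi fun x => ?_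
      refine Continuous.add ?_ ?_
      · exact (continuous_apply x).comp (hv.comp continuous_fst)
      · exact (hev x).comp ((hv.comp continuous_snd).prodMk (hg.comp continuous_fst))
    · exact (hg.comp continuous_fst).mul (hg.comp continuous_snd)
  have hinv : Continuous (fun p : W Q => p⁻¹) := by
    apply continuous_induced_rng.2
    refine Continuous.prodMk ?_ ?_
    · refine continuous_pi fun x => ?_
      exact ((hev' x).comp (hv.prodMk hg)).neg
    · exact hg.inv
  exact { continuous_mul := hmul, continuous_inv := hinv }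

instance [Finite Q] : CompactSpace (W Q) := by
  let _ : TopologicalSpace Q := ⊥
  have _ : DiscreteTopology Q := ⟨rfl⟩
  exact (W.homeo Q).symm.compactSpace

instance : TotallyDisconnectedSpace (W Q) := by
  let _ : TopologicalSpace Q := ⊥
  have _ : DiscreteTopology Q := ⟨rfl⟩
  exact (W.homeo Q).symm.totallyDisconnectedSpace

end pairs

/-! ### Counting lemmas -/

section counting

variable {Q R : Type} [Group Q] [Fintype Q] [CommRing R]

lemma card_dvd_sum (H : Subgroup Q) (F : Q → R) (hF : ∀ g, ∀ x ∈ H, F (g * x) = F g) :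
    ((Nat.card H : ℕ) : R) ∣ ∑ g, F g := by
  classical
  have _ : Fintype (Q ⧸ H) := Fintype.ofFinite _
  have h2 : ∑ g, F g = ∑ q : Q ⧸ H, ∑ g ∈ Finset.univ.filter (fun g : Q => (g : Q ⧸ H) = q), F g := by
    rw [Finset.sum_fiberwise]
  rw [h2]
  refine Finset.dvd_sum fun q _ => ?_
  have h3 : ∀ g ∈ Finset.univ.filter (fun g : Q => (g : Q ⧸ H) = q), F g = F q.out := by
    intro g hg
    rw [Finset.mem_filter] at hg
    have : (q.out : Q ⧸ H) = (g : Q ⧸ H) := by rw [hg.2]; exact QuotientGroup.out_eq' q
    rw [QuotientGroup.eq] at this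
    have h4 := hF q.out _ this
    rw [← h4]; congr 1; group
  rw [Finset.sum_congr rfl h3, Finset.sum_const]
  have h5 : (Finset.univ.filter (fun g : Q => (g : Q ⧸ H) = q)).card = Nat.card H := by
    rw [← Fintype.card_coe, ← Nat.card_eq_fintype_card]
    refine Nat.card_congr ?_
    refine ⟨fun g => ⟨q.out⁻¹ * g.1, ?_⟩, fun x => ⟨q.out * x.1, ?_⟩, ?_, ?_⟩
    · have := g.2
      rw [Finset.mem_filter] at this
      rw [← QuotientGroup.eq, this.2]; exact QuotientGroup.out_eq' q
    · rw [Finset.mem_filter]
      refine ⟨Finset.mem_univ _, ?_⟩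
      have h6 : (q.out : Q ⧸ H) = q := QuotientGroup.out_eq' q
      conv_rhs => rw [← h6]
      rw [eq_comm, QuotientGroup.eq]
      simp
    · intro g; ext; simp
    · intro x; ext; simp
  rw [h5, nsmul_eq_mul]
  exact Dvd.intro _ rfl

end counting

lemma even_or_odd (x : ℤ_[2]) : (∃ w, x = 2 * w) ∨ (∃ w, x = 1 + 2 * w) := by
  have h1 := PadicInt.sub_zmodRepr_mem x
  have h2 := PadicInt.zmodRepr_lt_p x
  rw [PadicInt.maximalIdeal_eq_span_p, Ideal.mem_span_singleton] at h1
  obtain ⟨w, hw⟩ := h1
  interval_cases h : PadicInt.zmodRepr x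
  · left; exact ⟨w, by simpa using hw⟩
  · right; refine ⟨w, ?_⟩
    have : x = 1 + (x - ((1:ℕ):ℤ_[2])) := by push_cast; ring
    rw [this, hw]; norm_num

lemma not_two_dvd_one : ¬ ∃ w : ℤ_[2], (1 : ℤ_[2]) = 2 * w := by
  rintro ⟨w, hw⟩
  have : ‖(1 : ℤ_[2])‖ < 1 := by
    rw [PadicInt.norm_lt_one_iff_dvd]
    exact ⟨w, by simpa using hw⟩
  simp at this


/-! ### The generalized quaternion groups -/

open QuaternionGroup

/-- The generalized quaternion group of order `2 ^ (k + 3)`. -/
abbrev Q (k : ℕ) : Type := QuaternionGroup (2 ^ (k + 1))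

instance (k : ℕ) : NeZero (2 ^ (k + 1)) := ⟨by positivity⟩

/-- The central involution. -/
def z (k : ℕ) : Q k := a ((2 ^ (k + 1) : ℕ) : ZMod (2 * 2 ^ (k + 1)))

/-- `0` on the cyclic subgroup `⟨a⟩` and `1` off it. -/
def chi {k : ℕ} : Q k → ℤ_[2]
  | a _ => 0
  | xa _ => 1

lemma half_add_half (k : ℕ) :
    ((2 ^ (k + 1) : ℕ) : ZMod (2 * 2 ^ (k + 1))) + ((2 ^ (k + 1) : ℕ) : ZMod (2 * 2 ^ (k + 1))) = 0 := by
  have : ((2 * 2 ^ (k + 1) : ℕ) : ZMod (2 * 2 ^ (k + 1))) = 0 := ZMod.natCast_self _
  rw [← this]; push_cast; ring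

lemma half_ne_zero (k : ℕ) : ((2 ^ (k + 1) : ℕ) : ZMod (2 * 2 ^ (k + 1))) ≠ 0 := by
  rw [Ne, ZMod.natCast_eq_zero_iff]
  intro h
  have h1 := Nat.le_of_dvd (by positivity) h
  have : 0 < 2 ^ (k + 1) := by positivity
  omega

lemma eq_half_of_two_mul {k : ℕ} {i : ZMod (2 * 2 ^ (k + 1))} (h : i + i = 0) :
    i = 0 ∨ i = ((2 ^ (k + 1) : ℕ) : ZMod (2 * 2 ^ (k + 1))) := by
  have h1 : i = (i.val : ZMod (2 * 2 ^ (k + 1))) := (ZMod.natCast_zmod_val i).symm
  have h2 : ((i.val + i.val : ℕ) : ZMod (2 * 2 ^ (k + 1))) = 0 := by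
    push_cast; rw [← h1, h]
  rw [ZMod.natCast_eq_zero_iff] at h2
  have h3 : i.val < 2 * 2 ^ (k + 1) := ZMod.val_lt i
  have hpos : 0 < 2 ^ (k + 1) := by positivity
  obtain ⟨c, hc⟩ := h2
  have hc2 : c < 2 := by
    by_contra hcon
    push Not at hcon
    have : 2 * 2 ^ (k + 1) * 2 ≤ 2 * 2 ^ (k + 1) * c := Nat.mul_le_mul_left _ hcon
    omega
  interval_cases c
  · left
    have : i.val = 0 := by omega
    rw [h1, this]; simp
  · right
    have : i.val = 2 ^ (k + 1) := by omega
    rw [h1, this]

lemma z_mul_z (k : ℕ) : z k * z k = 1 := by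
  simp only [z, a_mul_a, half_add_half]; rfl

lemma z_ne_one (k : ℕ) : z k ≠ 1 := by
  intro h
  rw [z, one_def] at h
  injection h with h
  exact half_ne_zero k h

lemma z_comm {k : ℕ} (g : Q k) : g * z k = z k * g := by
  have h1 : -((2 ^ (k + 1) : ℕ) : ZMod (2 * 2 ^ (k + 1))) = ((2 ^ (k + 1) : ℕ) : ZMod (2 * 2 ^ (k + 1))) :=
    neg_eq_of_add_eq_zero_left (half_add_half k)
  rcases g with i | i
  · simp [z, add_comm]
  · simp only [z, xa_mul_a, a_mul_xa]
    rw [sub_eq_add_neg, h1]

lemma chi_mul {k : ℕ} (g h : Q k) : ∃ c : ℤ_[2], chi g + chi h = chi (g * h) + 2 * c := by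
  rcases g with i | i <;> rcases h with j | j
  · exact ⟨0, by simp [chi]⟩
  · exact ⟨0, by simp [chi]⟩
  · exact ⟨0, by simp [chi]⟩
  · exact ⟨1, by simp [chi]; norm_num⟩

lemma chi_inv {k : ℕ} (g : Q k) : chi g⁻¹ = chi g := by
  rcases g with i | i <;> rfl

lemma sq_eq_z_of_chi {k : ℕ} (g : Q k) (h : chi g ≠ 0) : g * g = z k := by
  rcases g with i | i
  · simp [chi] at h
  · simp [z]

lemma eq_z_of_sq {k : ℕ} (g : Q k) (h : g * g = 1) (h1 : g ≠ 1) : g = z k := by
  rcases g with i | i
  · simp only [a_mul_a, one_def] at h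
    injection h with h
    rcases eq_half_of_two_mul h with h2 | h2
    · exact absurd (by rw [h2]; rfl) h1
    · rw [h2]; rfl
  · exfalso
    simp only [xa_mul_xa, one_def] at h
    injection h with h
    apply half_ne_zero k
    simpa using h

/-- every non-trivial element has a power equal to the central involution. -/
lemma exists_pow_eq_z {k : ℕ} (g : Q k) (h : g ≠ 1) : ∃ n : ℕ, g ^ n = z k := by
  have hcard : Nat.card (Q k) = 2 ^ (k + 3) := by
    rw [Nat.card_eq_fintype_card, QuaternionGroup.card]; ring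
  have h1 : orderOf g ∣ 2 ^ (k + 3) := hcard ▸ orderOf_dvd_natCard g
  obtain ⟨j, -, hj⟩ := (Nat.dvd_prime_pow Nat.prime_two).1 h1
  have hj0 : j ≠ 0 := by
    rintro rfl
    rw [pow_zero, orderOf_eq_one_iff] at hj
    exact h hj
  obtain ⟨j, rfl⟩ := Nat.exists_eq_succ_of_ne_zero hj0
  refine ⟨2 ^ j, eq_z_of_sq _ ?_ ?_⟩
  · rw [← pow_add, show 2 ^ j + 2 ^ j = 2 ^ (j.succ) by rw [pow_succ]; ring, ← hj]
    exact pow_orderOf_eq_one g
  · apply pow_ne_one_of_lt_orderOf
    · positivity
    · rw [hj]; exact Nat.pow_lt_pow_right (by norm_num) (Nat.lt_succ_self j)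

/-- an element `s ≠ 1` commuting with two non-commuting elements is the central involution. -/
lemma eq_z_of_commute {k : ℕ} (s p r : Q k) (hs : s ≠ 1) (hp : p * s = s * p) (hr : r * s = s * r)
    (hpr : p * r ≠ r * p) : s = z k := by
  -- key: an element of `⟨a⟩` commuting with an element off `⟨a⟩` squares to one
  have key : ∀ i j : ZMod (2 * 2 ^ (k + 1)), (a i : Q k) * xa j = xa j * a i → i + i = 0 := by
    intro i j h
    simp only [a_mul_xa, xa_mul_a] at h
    injection h with h
    have : i + i = (j + i) - (j - i) := by ring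
    rw [this, h]; ring
  rcases s with i | i
  · rcases p with j | j
    · rcases r with l | l
      · exact absurd (by simp [add_comm]) hpr
      · have := key i l hr.symm
        rcases eq_half_of_two_mul this with h | h
        · exact absurd (by rw [h]; rfl) hs
        · rw [h]; rfl
    · have := key i j hp.symm
      rcases eq_half_of_two_mul this with h | h
      · exact absurd (by rw [h]; rfl) hs
      · rw [h]; rfl
  · exfalso
    have key2 : ∀ p : Q k, p * xa i = xa i * p → p = 1 ∨ p = z k ∨ p = xa i ∨ p = xa i * z k := by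
      intro p hp
      rcases p with j | j
      · have := key j i hp
        rcases eq_half_of_two_mul this with h | h
        · left; rw [h]; rfl
        · right; left; rw [h]; rfl
      · simp only [xa_mul_xa] at hp
        injection hp with hp
        have h1 : (j - i) + (j - i) = 0 := by
          have : (j - i) + (j - i) = ((2 ^ (k + 1) : ℕ) + j - i) - ((2 ^ (k + 1) : ℕ) + i - j) := by ring
          rw [this, hp]; ring
        rcases eq_half_of_two_mul h1 with h | h
        · right; right; left; rw [sub_eq_zero] at h; rw [h]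
        · right; right; right
          have : j = i + ((2 ^ (k + 1) : ℕ) : ZMod (2 * 2 ^ (k + 1))) := by rw [← h]; ring
          rw [this]; rfl
    apply hpr
    have hc : ∀ g : Q k, g * z k = z k * g := z_comm
    rcases key2 p hp with rfl | rfl | rfl | rfl
    · simp
    · exact (hc r).symm
    · rcases key2 r hr with rfl | rfl | rfl | rfl
      · simp
      · exact hc _
      · rfl
      · rw [mul_assoc, ← hc]
    · rcases key2 r hr with rfl | rfl | rfl | rfl
      · simp
      · exact hc _
      · rw [mul_assoc, ← hc]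
      · rfl

/-! ### The profinite group -/

/-- The subgroup of the semidirect product: antisymmetric functions `v` (so that the central
involution acts as `-1`) whose parity (measured by half the sum of squares) is `chi g`. -/
def E (k : ℕ) : Subgroup (W (Q k)) where
  carrier := {p | (∀ h, p.v (h * z k) = - p.v h) ∧
    ∃ c : ℤ_[2], ∑ h, (p.v h) ^ 2 = 2 * chi p.g + 4 * c}
  one_mem' := by
    refine ⟨fun h => by simp, 0, ?_⟩
    have : chi (1 : Q k) = 0 := rfl
    simp [this]
  mul_mem' := by
    rintro p r ⟨hp1, c, hp2⟩ ⟨hr1, d, hr2⟩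
    refine ⟨fun h => ?_, ?_⟩
    · have : h * z k * p.g = h * p.g * z k := by rw [mul_assoc, ← z_comm, mul_assoc]
      simp only [W.mul_v, hp1, this, hr1]; ring
    · have hs : ∑ h, (r.v (h * p.g)) ^ 2 = ∑ h, (r.v h) ^ 2 :=
        Fintype.sum_equiv (Equiv.mulRight p.g) _ _ (fun _ => rfl)
      have hd : (2 : ℤ_[2]) ∣ ∑ h, p.v h * r.v (h * p.g) := by
        have h2 := card_dvd_sum (Subgroup.zpowers (z k)) (fun h => p.v h * r.v (h * p.g)) (by
          intro g x hx
          have hx' : x = 1 ∨ x = z k := by
            rw [Subgroup.mem_zpowers_iff] at hx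
            obtain ⟨n, rfl⟩ := hx
            rcases Int.even_or_odd' n with ⟨m, rfl | rfl⟩
            · left; rw [zpow_mul, zpow_two, z_mul_z, one_zpow]
            · right; rw [zpow_add, zpow_mul, zpow_two, z_mul_z, one_zpow, one_mul, zpow_one]
          rcases hx' with rfl | rfl
          · simp
          · have : g * z k * p.g = g * p.g * z k := by rw [mul_assoc, ← z_comm, mul_assoc]
            simp only [this, hp1, hr1]; ring)
        have h3 : Nat.card (Subgroup.zpowers (z k)) = 2 := by
          rw [Nat.card_zpowers]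
          exact orderOf_eq_prime (by rw [pow_two, z_mul_z]) (z_ne_one k)
        rw [h3] at h2
        exact_mod_cast h2
      obtain ⟨e, he⟩ := hd
      obtain ⟨f, hf⟩ := chi_mul p.g r.g
      refine ⟨c + d + e + f, ?_⟩
      have : ∑ h, ((p * r).v h) ^ 2 = ∑ h, (p.v h) ^ 2 + ∑ h, (r.v (h * p.g)) ^ 2
          + 2 * ∑ h, p.v h * r.v (h * p.g) := by
        rw [Finset.mul_sum, ← Finset.sum_add_distrib, ← Finset.sum_add_distrib]
        refine Finset.sum_congr rfl fun h _ => ?_
        simp only [W.mul_v]; ring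
      rw [this, hs, hp2, hr2, he, W.mul_g]
      linear_combination 2 * hf
  inv_mem' := by
    rintro p ⟨hp1, c, hp2⟩
    refine ⟨fun h => ?_, c, ?_⟩
    · have : h * z k * p.g⁻¹ = h * p.g⁻¹ * z k := by rw [mul_assoc, ← z_comm, mul_assoc]
      simp only [W.inv_v, this, hp1]
    · have hs : ∑ h, (p.v (h * p.g⁻¹)) ^ 2 = ∑ h, (p.v h) ^ 2 :=
        Fintype.sum_equiv (Equiv.mulRight p.g⁻¹) _ _ (fun _ => rfl)
      simp only [W.inv_v, W.inv_g, neg_sq, chi_inv]
      rw [hs, hp2]

lemma continuous_v {Q : Type} [Group Q] : Continuous (fun p : W Q => p.v) := by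
  let _ : TopologicalSpace Q := ⊥
  exact continuous_fst.comp (W.homeo Q).continuous

lemma continuous_of_g {Q X : Type} [Group Q] [TopologicalSpace X] (f : Q → X) :
    Continuous (fun p : W Q => f p.g) := by
  let _ : TopologicalSpace Q := ⊥
  have _ : DiscreteTopology Q := ⟨rfl⟩
  exact continuous_of_discreteTopology.comp (continuous_snd.comp (W.homeo Q).continuous)

lemma isClosed_g_eq_one {Q : Type} [Group Q] : IsClosed {p : W Q | p.g = 1} := by
  let _ : TopologicalSpace Q := ⊥
  have _ : DiscreteTopology Q := ⟨rfl⟩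
  have hc : Continuous (fun p : W Q => p.g) := continuous_snd.comp (W.homeo Q).continuous
  exact (isClosed_discrete ({1} : Set Q)).preimage hc

lemma isClosed_E (k : ℕ) : IsClosed (E k : Set (W (Q k))) := by
  have h1 : IsClosed {p : W (Q k) | ∀ h, p.v (h * z k) = - p.v h} := by
    rw [Set.ofPred_forall]
    refine isClosed_iInter fun h => ?_
    exact isClosed_eq ((continuous_apply _).comp continuous_v)
      (((continuous_apply _).comp continuous_v).neg)
  have h2 : IsClosed {p : W (Q k) | ∃ c : ℤ_[2], ∑ h, (p.v h) ^ 2 = 2 * chi p.g + 4 * c} := by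
    have h3 : IsClosed (Set.range (fun c : ℤ_[2] => 4 * c)) :=
      (isCompact_range (by fun_prop)).isClosed
    have h4 : Continuous (fun p : W (Q k) => ∑ h, (p.v h) ^ 2 - 2 * chi p.g) := by
      refine Continuous.sub ?_ ?_
      · refine continuous_finsetSum _ fun h _ => ?_
        exact ((continuous_apply h).comp continuous_v).pow 2
      · exact continuous_const.mul (continuous_of_g chi)
    have h5 : {p : W (Q k) | ∃ c : ℤ_[2], ∑ h, (p.v h) ^ 2 = 2 * chi p.g + 4 * c}
        = (fun p : W (Q k) => ∑ h, (p.v h) ^ 2 - 2 * chi p.g) ⁻¹'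
          (Set.range (fun c : ℤ_[2] => 4 * c)) := by
      ext p
      simp only [Set.mem_ofPred_eq, Set.mem_preimage, Set.mem_range]
      constructor
      · rintro ⟨c, hc⟩; exact ⟨c, by rw [hc]; ring⟩
      · rintro ⟨c, hc⟩; exact ⟨c, by rw [hc]; ring⟩
    rw [h5]; exact h3.preimage h4
  exact h1.inter h2

/-- The profinite group. -/
def G (k : ℕ) : ProfiniteGrp.{0} :=
  ProfiniteGrp.ofClosedSubgroup (G := ProfiniteGrp.of (W (Q k))) ⟨E k, isClosed_E k⟩

/-- The projection to `Q k`. -/
def proj (k : ℕ) : E k →* Q k where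
  toFun p := p.1.g
  map_one' := rfl
  map_mul' _ _ := rfl

lemma proj_surjective (k : ℕ) : Function.Surjective (proj k) := by
  intro g
  rcases g with i | i
  · exact ⟨⟨⟨fun _ => 0, a i⟩, ⟨fun h => by simp, 0, by simp [chi]⟩⟩, rfl⟩
  · have hz : z k ≠ 1 := z_ne_one k
    refine ⟨⟨⟨fun h => if h = 1 then 1 else if h = z k then -1 else 0, xa i⟩, ⟨fun h => ?_, 0, ?_⟩⟩, rfl⟩
    · by_cases h1 : h = 1
      · subst h1; simp [hz]
      · by_cases h2 : h = z k
        · subst h2; simp [z_mul_z, hz]
        · have h3 : h * z k ≠ 1 := by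
            intro h4
            apply h2
            have : h = h * z k * z k := by rw [mul_assoc, z_mul_z, mul_one]
            rw [this, h4, one_mul]
          have h4 : h * z k ≠ z k := by
            intro h4; apply h1; simpa using h4
          simp [h1, h2, h3]
    · have : ∀ h : Q k, ((if h = 1 then (1 : ℤ_[2]) else if h = z k then -1 else 0)) ^ 2
          = (if h = 1 then 1 else 0) + (if h = z k then 1 else 0) := by
        intro h
        by_cases h1 : h = 1
        · subst h1; simp [hz.symm]
        · by_cases h2 : h = z k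
          · simp [h2, hz]
          · simp [h1, h2]
      simp only [this, Finset.sum_add_distrib]
      simp [chi]; norm_num

/-- the action of `Q` on functions has no fixed points -/
lemma eq_zero_of_fixed {k : ℕ} (v : Q k → ℤ_[2]) (hv : ∀ h, v (h * z k) = - v h) (s : Q k)
    (hs : s ≠ 1) (h : ∀ x, v (x * s) = v x) : ∀ x, v x = 0 := by
  obtain ⟨n, hn⟩ := exists_pow_eq_z s hs
  have h1 : ∀ m : ℕ, ∀ x, v (x * s ^ m) = v x := by
    intro m
    induction m with
    | zero => simp
    | succ m ih => intro x; rw [pow_succ s m, ← mul_assoc, h, ih]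
  intro x
  have h2 := h1 n x
  rw [hn, hv] at h2
  have h3 : 2 * v x = 0 := by linear_combination -h2
  rcases mul_eq_zero.1 h3 with h4 | h4
  · norm_num at h4
  · exact h4

/-- The main computation: no element of `E` over the central involution commutes with elements
over two non-commuting elements of `Q`, the second of which lies off the cyclic subgroup. -/
lemma main_aux {k : ℕ} (v b : Q k → ℤ_[2]) (p r : Q k) (hv : ∀ h, v (h * z k) = - v h)
    (hpr : p * r ≠ r * p) (hp : ∀ h, ∃ c, v (h * p) = v h + 2 * c)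
    (hb : ∀ h, 2 * b h = v h - v (h * r))
    (hr2 : r * r = z k) (c : ℤ_[2]) (hS : ∑ h, (b h) ^ 2 = 2 + 4 * c) : False := by
  classical
  -- the subgroup of elements fixing `v` mod 2
  let H : Subgroup (Q k) :=
    { carrier := {g | ∀ h, ∃ c, v (h * g) = v h + 2 * c}
      one_mem' := fun h => ⟨0, by simp⟩
      mul_mem' := by
        intro g g' hg hg' h
        obtain ⟨c, hc⟩ := hg h
        obtain ⟨d, hd⟩ := hg' (h * g)
        exact ⟨c + d, by rw [← mul_assoc, hd, hc]; ring⟩
      inv_mem' := by
        intro g hg h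
        obtain ⟨c, hc⟩ := hg (h * g⁻¹)
        refine ⟨-c, ?_⟩
        have : v h = v (h * g⁻¹) + 2 * c := by rw [← hc]; simp
        rw [this]; ring }
  have hpH : p ∈ H := hp
  have hrH : r ∈ H := fun h => ⟨-b h, by linear_combination hb h⟩
  -- its order is divisible by 8
  have h8 : (8 : ℕ) ∣ Nat.card H := by
    have hcard : Nat.card (Q k) = 2 ^ (k + 3) := by
      rw [Nat.card_eq_fintype_card, QuaternionGroup.card]; ring
    have h1 : Nat.card H ∣ 2 ^ (k + 3) := hcard ▸ H.card_subgroup_dvd_card
    obtain ⟨j, -, hj⟩ := (Nat.dvd_prime_pow Nat.prime_two).1 h1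
    have h5 : 5 ≤ Nat.card H := by
      let S : Finset (Q k) := {1, p, r, p * r, r * p}
      have hS : S.card = 5 := by
        have e1 : p ≠ 1 := by rintro rfl; simp at hpr
        have e2 : r ≠ 1 := by rintro rfl; simp at hpr
        have e3 : p ≠ r := by rintro rfl; simp at hpr
        have e4 : p * r ≠ 1 := by
          intro h; apply hpr
          have : r = p⁻¹ := by rw [eq_comm, inv_eq_iff_mul_eq_one]; exact h
          rw [this]; simp
        have e5 : r * p ≠ 1 := by
          intro h; apply hpr
          have : p = r⁻¹ := by rw [eq_comm, inv_eq_iff_mul_eq_one]; exact h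
          rw [this]; simp
        have e6 : p * r ≠ p := by intro h; apply e2; simpa using h
        have e7 : p * r ≠ r := by intro h; apply e1; simpa using h
        have e8 : r * p ≠ p := by intro h; apply e2; simpa using h
        have e9 : r * p ≠ r := by intro h; apply e1; simpa using h
        simp only [S]
        rw [Finset.card_insert_of_notMem, Finset.card_insert_of_notMem,
          Finset.card_insert_of_notMem, Finset.card_insert_of_notMem, Finset.card_singleton]
        · simp [hpr]
        · simp [e7.symm, e9.symm]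
        · simp [e3, e6.symm, e8.symm]
        · simp [e1.symm, e2.symm, e4.symm, e5.symm]
      have hSH : ∀ x ∈ S, x ∈ H := by
        intro x hx
        simp only [S, Finset.mem_insert, Finset.mem_singleton] at hx
        rcases hx with rfl | rfl | rfl | rfl | rfl
        · exact H.one_mem
        · exact hpH
        · exact hrH
        · exact H.mul_mem hpH hrH
        · exact H.mul_mem hrH hpH
      have h6 : Nat.card (S : Set (Q k)) ≤ Nat.card H :=
        Nat.card_mono (Set.toFinite _) (fun x hx => hSH x hx)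
      have h7 : Nat.card (S : Set (Q k)) = 5 := by
        rw [← hS]; simp
      omega
    rw [hj] at h5 ⊢
    have : 3 ≤ j := by
      by_contra hcon
      push Not at hcon
      have : 2 ^ j ≤ 2 ^ 2 := Nat.pow_le_pow_right (by norm_num) (by omega)
      omega
    exact pow_dvd_pow 2 this
  -- parity indicator and the quotient of the square
  let o : Q k → ℤ_[2] := fun h => if ∃ w, v h = 2 * w then 0 else 1
  have hoe : ∀ h, ∃ e, (v h) ^ 2 = o h + 4 * e := by
    intro h
    by_cases hh : ∃ w, v h = 2 * w
    · obtain ⟨w, hw⟩ := hh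
      refine ⟨w ^ 2, ?_⟩
      have : o h = 0 := if_pos ⟨w, hw⟩
      rw [this, hw]; ring
    · have h1 : o h = 1 := if_neg hh
      rcases even_or_odd (v h) with h2 | ⟨w, hw⟩
      · exact absurd h2 hh
      · refine ⟨w + w ^ 2, ?_⟩
        rw [h1, hw]; ring
  choose e he using hoe
  have hoH : ∀ g, ∀ x ∈ H, o (g * x) = o g := by
    intro g x hx
    obtain ⟨c, hc⟩ := hx g
    have : (∃ w, v (g * x) = 2 * w) ↔ (∃ w, v g = 2 * w) := by
      constructor
      · rintro ⟨w, hw⟩; exact ⟨w - c, by linear_combination hw - hc⟩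
      · rintro ⟨w, hw⟩; exact ⟨w + c, by linear_combination hw + hc⟩
    simp only [o, this]
  obtain ⟨m, hm⟩ := card_dvd_sum H o hoH
  obtain ⟨t, ht⟩ := h8
  have hzH : z k ∈ H := by rw [← hr2]; exact H.mul_mem hrH hrH
  have hez : ∀ g, ∀ x ∈ Subgroup.zpowers (z k), e (g * x) = e g := by
    intro g x hx
    have hx' : x = 1 ∨ x = z k := by
      rw [Subgroup.mem_zpowers_iff] at hx
      obtain ⟨n, rfl⟩ := hx
      rcases Int.even_or_odd' n with ⟨m, rfl | rfl⟩
      · left; rw [zpow_mul, zpow_two, z_mul_z, one_zpow]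
      · right; rw [zpow_add, zpow_mul, zpow_two, z_mul_z, one_zpow, one_mul, zpow_one]
    rcases hx' with rfl | rfl
    · simp
    · have h1 := he (g * z k)
      have h2 := he g
      rw [hoH g _ hzH, hv, neg_sq, h2] at h1
      have h3 : (4 : ℤ_[2]) * (e (g * z k) - e g) = 0 := by linear_combination -h1
      rcases mul_eq_zero.1 h3 with h4 | h4
      · norm_num at h4
      · exact sub_eq_zero.1 h4
  have hdz : (2 : ℤ_[2]) ∣ ∑ h, e h := by
    have h2 := card_dvd_sum (Subgroup.zpowers (z k)) e hez
    have h3 : Nat.card (Subgroup.zpowers (z k)) = 2 := by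
      rw [Nat.card_zpowers]
      exact orderOf_eq_prime (by rw [pow_two, z_mul_z]) (z_ne_one k)
    rw [h3] at h2
    exact_mod_cast h2
  obtain ⟨d, hd⟩ := hdz
  have hSv : ∑ h, (v h) ^ 2 = 8 * ((t : ℤ_[2]) * m + d) := by
    have : ∑ h, (v h) ^ 2 = ∑ h, o h + 4 * ∑ h, e h := by
      rw [Finset.mul_sum, ← Finset.sum_add_distrib]
      exact Finset.sum_congr rfl fun h _ => he h
    rw [this, hm, hd, ht]; push_cast; ring
  have hT : ∑ h, v h * v (h * r) = 0 := by
    have h1 : ∑ h, v (h * r) * v (h * r * r) = ∑ h, v h * v (h * r) :=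
      Fintype.sum_equiv (Equiv.mulRight r) _ _ (fun _ => rfl)
    have h2 : ∑ h, v (h * r) * v (h * r * r) = - ∑ h, v h * v (h * r) := by
      rw [← Finset.sum_neg_distrib]
      refine Finset.sum_congr rfl fun h _ => ?_
      rw [mul_assoc h r r, hr2, hv]; ring
    have h3 : (2 : ℤ_[2]) * ∑ h, v h * v (h * r) = 0 := by linear_combination h2 - h1
    rcases mul_eq_zero.1 h3 with h4 | h4
    · norm_num at h4
    · exact h4
  have hSr : ∑ h, (v (h * r)) ^ 2 = ∑ h, (v h) ^ 2 :=
    Fintype.sum_equiv (Equiv.mulRight r) _ _ (fun _ => rfl)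
  have hfin : 4 * ∑ h, (b h) ^ 2 = 2 * ∑ h, (v h) ^ 2 := by
    have : 4 * ∑ h, (b h) ^ 2 = ∑ h, (v h) ^ 2 + ∑ h, (v (h * r)) ^ 2
        - 2 * ∑ h, v h * v (h * r) := by
      rw [Finset.mul_sum, Finset.mul_sum, ← Finset.sum_add_distrib, ← Finset.sum_sub_distrib]
      refine Finset.sum_congr rfl fun h _ => ?_
      have := hb h
      have h4 : 4 * (b h) ^ 2 = (2 * b h) ^ 2 := by ring
      rw [h4, this]; ring
    rw [this, hSr, hT]; ring
  rw [hS, hSv] at hfin
  have h8 : (8 : ℤ_[2]) * (1 - 2 * ((t : ℤ_[2]) * m + d - c)) = 0 := by linear_combination hfin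
  rcases mul_eq_zero.1 h8 with h4 | h4
  · norm_num at h4
  · exact not_two_dvd_one ⟨_, sub_eq_zero.1 h4⟩

/-- `E k` is a CA-group. -/
lemma isCA (k : ℕ) (g p r : W (Q k)) (hg : g ∈ E k) (hp : p ∈ E k) (hr : r ∈ E k) (hg1 : g ≠ 1)
    (hpg : p * g = g * p) (hrg : r * g = g * r) : p * r = r * p := by
  obtain ⟨hg2, cg, hg3⟩ := hg
  obtain ⟨hp2, cp, hp3⟩ := hp
  obtain ⟨hr2, cr, hr3⟩ := hr
  have hpg1 : ∀ x, p.v x + g.v (x * p.g) = g.v x + p.v (x * g.g) := fun x =>
    congrFun (congrArg W.v hpg) x
  have hpg2 : p.g * g.g = g.g * p.g := congrArg W.g hpg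
  have hrg1 : ∀ x, r.v x + g.v (x * r.g) = g.v x + r.v (x * g.g) := fun x =>
    congrFun (congrArg W.v hrg) x
  have hrg2 : r.g * g.g = g.g * r.g := congrArg W.g hrg
  by_cases hs : g.g = 1
  · -- `g` lies in the lattice
    have h0 : ∀ q : W (Q k), (∀ x, q.v x + g.v (x * q.g) = g.v x + q.v (x * g.g)) → q.g = 1 := by
      intro q hq
      by_contra hq1
      apply hg1
      ext x
      · rw [W.one_v]
        refine eq_zero_of_fixed g.v hg2 q.g hq1 (fun y => ?_) x
        have := hq y
        rw [hs, mul_one] at this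
        linear_combination this
      · rw [hs]; rfl
    have hp1 := h0 p hpg1
    have hr1 := h0 r hrg1
    ext x
    · simp [hp1, hr1, add_comm]
    · simp [hp1, hr1]
  · by_cases hc : p.g * r.g = r.g * p.g
    · -- commuting images
      ext x
      · have hfix : ∀ x, (fun x => (p * r).v x - (r * p).v x) (x * g.g)
            = (fun x => (p * r).v x - (r * p).v x) x := by
          intro x
          have e1 : (p * r) * g = g * (p * r) := by
            rw [mul_assoc, hrg, ← mul_assoc, hpg, mul_assoc]
          have e2 : (r * p) * g = g * (r * p) := by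
            rw [mul_assoc, hpg, ← mul_assoc, hrg, mul_assoc]
          have f1 : (p * r).v x + g.v (x * (p * r).g) = g.v x + (p * r).v (x * g.g) :=
            congrFun (congrArg W.v e1) x
          have f2 : (r * p).v x + g.v (x * (r * p).g) = g.v x + (r * p).v (x * g.g) :=
            congrFun (congrArg W.v e2) x
          have f3 : (p * r).g = (r * p).g := hc
          rw [f3] at f1
          simp only
          linear_combination f2 - f1
        have hanti : ∀ h, (fun x => (p * r).v x - (r * p).v x) (h * z k)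
            = - (fun x => (p * r).v x - (r * p).v x) h := by
          intro h
          have t1 : h * z k * p.g = h * p.g * z k := by rw [mul_assoc, ← z_comm, mul_assoc]
          have t2 : h * z k * r.g = h * r.g * z k := by rw [mul_assoc, ← z_comm, mul_assoc]
          simp only [W.mul_v, t1, t2, hp2, hr2]; ring
        have := eq_zero_of_fixed (fun x => (p * r).v x - (r * p).v x) hanti g.g hs hfix x
        exact sub_eq_zero.1 this
      · exact hc
    · -- non-commuting images: impossible
      exfalso
      have hgz : g.g = z k := eq_z_of_commute g.g p.g r.g hs hpg2 hrg2 hc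
      have hbp : ∀ h, 2 * p.v h = g.v h - g.v (h * p.g) := by
        intro h
        have := hpg1 h
        rw [hgz, hp2] at this
        linear_combination this
      have hbr : ∀ h, 2 * r.v h = g.v h - g.v (h * r.g) := by
        intro h
        have := hrg1 h
        rw [hgz, hr2] at this
        linear_combination this
      have hchi : ∀ q : Q k, chi q = 0 ∨ chi q = 1 := by
        intro q
        rcases q with i | i
        · left; rfl
        · right; rfl
      rcases hchi r.g with h1 | h1
      · rcases hchi p.g with h2 | h2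
        · -- both in the cyclic subgroup: they commute
          apply hc
          generalize p.g = x at *
          generalize r.g = y at *
          rcases x with i | i
          · rcases y with j | j
            · simp [add_comm]
            · simp [chi] at h1
          · simp [chi] at h2
        · refine main_aux g.v p.v r.g p.g hg2 (fun h => hc h.symm)
            (fun h => ⟨-r.v h, by linear_combination hbr h⟩) hbp
            (sq_eq_z_of_chi _ (by rw [h2]; exact one_ne_zero)) cp ?_
          rw [hp3, h2]; ring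
      · refine main_aux g.v r.v p.g r.g hg2 hc
            (fun h => ⟨-p.v h, by linear_combination hbp h⟩) hbr
            (sq_eq_z_of_chi _ (by rw [h1]; exact one_ne_zero)) cr ?_
        rw [hr3, h1]; ring


end

end Pool.Agent.Helper48.QuaternionCA
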